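import Pool.Agent.H87.EBK.Stmts2

/-!
# Row STU of the board `ebs`: size of a step, upper bound
-/

set_option autoImplicit false

namespace Pool.EBK

theorem stu_le {x y : ℚ} (hx : 0 ≤ x) (hy : 0 ≤ y) (h : x ^ 2 ≤ y ^ 2) : x ≤ y :=
  (pow_le_pow_iff_left₀ hx hy (by norm_num : (2 : ℕ) ≠ 0)).1 h

theorem stu : STU := by
  intro a b c u w c' u' w' C ha hab h h' hcC hc'
  obtain ⟨hc, hu, hw, hu2, hw2⟩ := h
  obtain ⟨hc'0, hu', hw', hu2', hw2'⟩ := h'
  have hb : 0 < b := lt_of_lt_of_le ha hab
  have hC : 0 < C := lt_of_lt_of_le hc hcC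
  have hcu : c ≤ u := stu_le hc.le hu.le (by rw [hu2]; nlinarith [sq_nonneg a])
  have hau : a ≤ u := stu_le ha.le hu.le (by rw [hu2]; nlinarith [sq_nonneg c])
  have hwb : w ≤ b + c := stu_le hw.le (by linarith) (by rw [hw2]; nlinarith [mul_pos hb hc])
  have hwC : w ≤ C + b := by linarith
  have hcw' : c' ≤ w' := stu_le hc'0.le hw'.le (by rw [hw2']; nlinarith [sq_nonneg b])
  have hw1 : 1 ≤ w' := hc'.trans hcw'
  have huw' : u' ≤ w' := stu_le hu'.le hw'.le (by
    rw [hw2', hu2']
    have := pow_le_pow_left₀ ha.le hab 2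
    linarith)
  have hd : 0 ≤ w' - u' := by linarith
  have hd2 : c' * (w' - u') ≤ b ^ 2 := by
    have e1 : (w' + u') * (w' - u') = b ^ 2 - a ^ 2 := by
      have : (w' + u') * (w' - u') = w' ^ 2 - u' ^ 2 := by ring
      rw [this, hw2', hu2']
      ring
    have e2 : c' * (w' - u') ≤ (w' + u') * (w' - u') :=
      mul_le_mul_of_nonneg_right (by linarith) hd
    have e3 := sq_nonneg a
    linarith
  have hM : 0 < MU c u w c' u' w' := by
    unfold MU
    positivity
  have hwu : 0 < w' * u := mul_pos hw' hu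
  -- the three terms
  have t1 : c * c' * u * (w' - u') ≤ C * b ^ 2 * (w' * u) := by
    have s1 : c * (c' * (w' - u')) ≤ C * b ^ 2 :=
      mul_le_mul hcC hd2 (mul_nonneg hc'0.le hd) hC.le
    have s2 : u ≤ w' * u := by
      have := mul_le_mul_of_nonneg_right hw1 hu.le
      linarith
    calc c * c' * u * (w' - u') = c * (c' * (w' - u')) * u := by ring
      _ ≤ C * b ^ 2 * (w' * u) := mul_le_mul s1 s2 hu.le (by positivity)
  have t2 : c ^ 2 * w * u' ≤ C * (C + b) * (w' * u) := by
    have s1 : c * w ≤ C * (C + b) := mul_le_mul hcC hwC hw.le hC.le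
    have s2 : c * u' ≤ u * w' := mul_le_mul hcu huw' hu'.le hu.le
    calc c ^ 2 * w * u' = (c * w) * (c * u') := by ring
      _ ≤ (C * (C + b)) * (u * w') := mul_le_mul s1 s2 (by positivity) (by positivity)
      _ = C * (C + b) * (w' * u) := by ring
  have t3 : a ^ 2 * w * w' ≤ a * (C + b) * (w' * u) := by
    have s1 : a * w ≤ a * (C + b) := mul_le_mul_of_nonneg_left hwC ha.le
    have s2 : a * w' ≤ u * w' := mul_le_mul_of_nonneg_right hau hw'.le
    calc a ^ 2 * w * w' = (a * w) * (a * w') := by ring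
      _ ≤ (a * (C + b)) * (u * w') := mul_le_mul s1 s2 (by positivity) (by positivity)
      _ = a * (C + b) * (w' * u) := by ring
  have key : c * MU c u w c' u' w' - NU a c u w c' u' w' ≤
      (C * b ^ 2 + (C + a) * (C + b)) * (w' * u) := by
    have e : c * MU c u w c' u' w' - NU a c u w c' u' w' =
        c * c' * u * (w' - u') + c ^ 2 * w * u' + a ^ 2 * w * w' := by
      unfold MU NU
      ring
    rw [e]
    linarith
  have hK : 0 ≤ C * b ^ 2 + (C + a) * (C + b) := by positivity
  have hMc : w' * u ≤ MU c u w c' u' w' / c' := by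
    rw [le_div_iff₀ hc'0]
    have e : MU c u w c' u' w' = c' * w' * u + c * w * u' := rfl
    rw [e]
    have : 0 ≤ c * w * u' := by positivity
    linarith
  have h5 : c - (C * b ^ 2 + (C + a) * (C + b)) / c' ≤
      NU a c u w c' u' w' / MU c u w c' u' w' := by
    rw [le_div_iff₀ hM]
    have h6 := mul_le_mul_of_nonneg_left hMc hK
    have h7 : (C * b ^ 2 + (C + a) * (C + b)) * (MU c u w c' u' w' / c') =
        (C * b ^ 2 + (C + a) * (C + b)) / c' * MU c u w c' u' w' := by ring
    rw [h7] at h6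
    have h8 : (c - (C * b ^ 2 + (C + a) * (C + b)) / c') * MU c u w c' u' w' =
        c * MU c u w c' u' w' -
          (C * b ^ 2 + (C + a) * (C + b)) / c' * MU c u w c' u' w' := by ring
    rw [h8]
    linarith
  linarith

end Pool.EBK
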